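import Pool.Agent.Helper60.DescReal

/-!
Every combination, with nonnegative coefficients, of the descent polynomials of the even and of the
odd permutations has only real roots, none of them positive.
-/

set_option autoImplicit false

namespace Pool.Agent.Results.MP_977251_co.SignedCombinations

open Polynomial Pool.Agent.Helper60.DescReal

/-- the number of descents of a permutation of `0, …, n - 1` -/
noncomputable def des {n : ℕ} (π : Equiv.Perm (Fin n)) : ℕ :=
  {i : Fin n | ∃ h : i.val + 1 < n, π ⟨i.val + 1, h⟩ < π i}.ncard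

theorem des_eq {n : ℕ} (π : Equiv.Perm (Fin n)) :
    des π = Pool.Agent.Helper60.DescReal.des π := by
  classical
  unfold des Pool.Agent.Helper60.DescReal.des
  rw [← Set.ncard_coe_finset]
  refine Set.ncard_congr (fun i _ => (i, if h : i.val + 1 < n then ⟨i.val + 1, h⟩ else i)) ?_ ?_ ?_
  · rintro i ⟨h, hi⟩
    simp only [Finset.coe_filter, Finset.mem_univ, true_and, Set.mem_ofPred_eq, dif_pos h]
    exact hi
  · rintro i j ⟨h, hi⟩ ⟨h', hj⟩ hij
    exact congrArg Prod.fst hij
  · rintro ⟨i, j⟩ hij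
    simp only [Finset.coe_filter, Finset.mem_univ, true_and, Set.mem_ofPred_eq] at hij
    have hlt : i.val + 1 < n := by rw [← hij.1]; exact j.2
    have hj : j = ⟨i.val + 1, hlt⟩ := Fin.ext hij.1
    refine ⟨i, ⟨hlt, ?_⟩, ?_⟩
    · rw [← hj]; exact hij.2
    · rw [dif_pos hlt, hj]

/-- the combination `a A⁺ + b A⁻` -/
noncomputable def comb (n : ℕ) (a b : ℝ) : ℝ[X] := C a * dpoly n 1 + C b * dpoly n (-1)

theorem comb_expand (n : ℕ) (a b : ℝ) :
    C ((2:ℝ)^((n+1)/2 + 1)) * (X * comb (n+1) a b) =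
      ∑ j ∈ Finset.range ((n+1)/2+1), C ((((n+1)/2).choose j : ℝ) *
        (a * (1 + (-1)^j) + b * (1 - (-1)^j))) * W (Lst j ((n+1)/2 - j) ((n+2)/2)) := by
  have h1 := dpoly_expand n 1
  have h2 := dpoly_expand n (-1)
  have h3 : C ((2:ℝ)^((n+1)/2 + 1)) * (X * comb (n+1) a b) =
      C a * (C ((2:ℝ)^((n+1)/2 + 1)) * (X * dpoly (n+1) 1)) +
      C b * (C ((2:ℝ)^((n+1)/2 + 1)) * (X * dpoly (n+1) (-1))) := by
    unfold comb
    ring
  rw [h3, h1, h2, Finset.mul_sum, Finset.mul_sum, ← Finset.sum_add_distrib]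
  refine Finset.sum_congr rfl fun j _ => ?_
  rw [← mul_assoc, ← mul_assoc, ← C_mul, ← C_mul, ← add_mul, ← C_add]
  congr 2
  push_cast
  ring

theorem upper (n : ℕ) (hn : 1 ≤ n) (a b : ℝ) (ha : 0 ≤ a) (hb : 0 ≤ b) (hab : 0 < a + b) (z : ℂ)
    (hz : 0 < z.im) : aeval z (comb (n+1) a b) ≠ 0 := by
  intro h0
  have he := congrArg (aeval z) (comb_expand n a b)
  rw [map_mul, map_mul, h0, mul_zero, mul_zero, map_sum] at he
  set m := (n+1)/2 with hm
  set q := (n+2)/2 with hq
  have hm1 : 1 ≤ m := by omega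
  have hqm : q = m ∨ q = m + 1 := by omega
  have hq1 : 1 ≤ q := by omega
  set c : ℕ → ℝ := fun j => (m.choose j : ℝ) * (a * (1 + (-1)^j) + b * (1 - (-1)^j)) with hcdef
  have hc : ∀ j ∈ Finset.range (m+1), aeval z (C ((m.choose j : ℝ) *
      (a * (1 + (-1)^j) + b * (1 - (-1)^j))) * W (Lst j (m - j) q))
      = ((c j : ℝ) : ℂ) * aeval z (chain m q j) := by
    intro j hj
    have hj' : j ≤ m := by have := Finset.mem_range.1 hj; omega
    rw [map_mul, aeval_C]
    unfold chain
    rw [if_pos hj']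
    rfl
  rw [Finset.sum_congr rfl hc] at he
  obtain ⟨d, hd⟩ := chain_good m q 0 hm1 hq1
  have hne := hd.aeval_ne z hz
  have he2 : (0 : ℂ) = ∑ j ∈ Finset.range (m+1), ((c j : ℝ) : ℂ)
      * (aeval z (chain m q j) / aeval z (chain m q 0)) := by
    have : ∑ j ∈ Finset.range (m+1), ((c j : ℝ) : ℂ)
      * (aeval z (chain m q j) / aeval z (chain m q 0))
      = (∑ j ∈ Finset.range (m+1), ((c j : ℝ) : ℂ)
      * (aeval z (chain m q j))) / aeval z (chain m q 0) := by
      rw [Finset.sum_div]
      refine Finset.sum_congr rfl fun j _ => by ring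
    rw [this, ← he]; simp
  have hcoef : ∀ j, 0 ≤ c j := by
    intro j
    apply mul_nonneg (by positivity)
    rcases neg_one_pow_eq_or ℝ j with h' | h' <;> rw [h']
    · norm_num; exact ha
    · norm_num; exact hb
  have him := congrArg Complex.im he2
  rw [Complex.zero_im, Complex.im_sum, Finset.sum_range_succ'] at him
  have h00 : (((c 0 : ℝ) : ℂ)
      * (aeval z (chain m q 0) / aeval z (chain m q 0))).im = 0 := by
    rw [div_self hne, mul_one, Complex.ofReal_im]
  rw [h00, add_zero] at him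
  have hterm : ∀ j ∈ Finset.range m, 0 ≤ (((c (j+1) : ℝ) : ℂ)
      * (aeval z (chain m q (j+1)) / aeval z (chain m q 0))).im := by
    intro j hj
    have hj' := Finset.mem_range.1 hj
    rw [Complex.im_ofReal_mul]
    exact mul_nonneg (hcoef _) (chain_main m q hm1 hqm z hz (j+1) (by omega) (by omega)).le
  have hall := (Finset.sum_eq_zero_iff_of_nonneg hterm).1 him.symm
  have hzero : ∀ j ∈ Finset.range m, c (j+1) = 0 := by
    intro j hj
    have hj' := Finset.mem_range.1 hj
    have := hall j hj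
    rw [Complex.im_ofReal_mul] at this
    rcases mul_eq_zero.1 this with h | h
    · exact h
    · exfalso
      have := chain_main m q hm1 hqm z hz (j+1) (by omega) (by omega)
      linarith
  have hb0 : b = 0 := by
    have h1 := hzero 0 (Finset.mem_range.2 (by omega))
    have h2 : c (0+1) = 2 * (m:ℝ) * b := by
      simp only [hcdef, zero_add, Nat.choose_one_right, pow_one]
      ring
    rw [h2] at h1
    have hmpos : (0:ℝ) < m := by exact_mod_cast hm1
    have : (2 * (m:ℝ)) ≠ 0 := by positivity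
    exact (mul_eq_zero.1 h1).resolve_left this
  rw [Finset.sum_range_succ'] at he2
  have h3 : ∑ k ∈ Finset.range m, ((c (k+1) : ℝ) : ℂ)
      * (aeval z (chain m q (k+1)) / aeval z (chain m q 0)) = 0 := by
    apply Finset.sum_eq_zero
    intro j hj
    rw [hzero j hj]; simp
  have hc0 : c 0 = 2 * a := by
    simp only [hcdef, Nat.choose_zero_right, pow_zero]
    push_cast
    ring
  rw [h3, div_self hne, hc0, zero_add, mul_one] at he2
  have h4 : (2 * a : ℝ) = 0 := by exact_mod_cast he2.symm
  linarith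

theorem comb_coeff_nonneg (n : ℕ) (a b : ℝ) (ha : 0 ≤ a) (hb : 0 ≤ b) (k : ℕ) :
    0 ≤ (comb n a b).coeff k := by
  have hd : ∀ s : ℤˣ, 0 ≤ (dpoly n s).coeff k := by
    intro s
    unfold dpoly
    rw [finsetSum_coeff]
    refine Finset.sum_nonneg fun π _ => ?_
    rw [coeff_X_pow]
    split_ifs <;> norm_num
  unfold comb
  rw [coeff_add, coeff_C_mul, coeff_C_mul]
  exact add_nonneg (mul_nonneg ha (hd 1)) (mul_nonneg hb (hd (-1)))

/-- **All nonnegative combinations of the two descent polynomials are real-rooted.** -/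
theorem result (n : ℕ) (hn : 2 ≤ n) (a b : ℝ) (ha : 0 ≤ a) (hb : 0 ≤ b) (hab : 0 < a + b)
    (z : ℂ)
    (hz : (a : ℂ) * ∑ π : Equiv.Perm (Fin n) with Equiv.Perm.sign π = 1, z ^ des π +
      (b : ℂ) * ∑ π : Equiv.Perm (Fin n) with Equiv.Perm.sign π = -1, z ^ des π = 0) :
    z.im = 0 ∧ z.re ≤ 0 := by
  have hz' : aeval z (comb n a b) = 0 := by
    unfold comb dpoly
    simp only [map_add, map_mul, map_sum, aeval_C, map_pow, aeval_X, ← des_eq]
    exact hz
  have him : z.im = 0 := by
    obtain ⟨k, rfl⟩ : ∃ k, n = k + 1 := ⟨n - 1, by omega⟩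
    rcases lt_trichotomy z.im 0 with hi | hi | hi
    · exfalso
      apply upper k (by omega) a b ha hb hab (starRingEnd ℂ z) (by simpa using hi)
      rw [aeval_conj, hz']; simp
    · exact hi
    · exact absurd hz' (upper k (by omega) a b ha hb hab z hi)
  refine ⟨him, ?_⟩
  by_contra hre
  rw [not_le] at hre
  -- at a positive real point every nonnegative polynomial is positive
  have hzr : z = ((z.re : ℝ) : ℂ) := by
    apply Complex.ext <;> simp [him]
  have h1 : (comb n a b).eval z.re = 0 := by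
    have h2 : aeval ((z.re : ℝ) : ℂ) (comb n a b) = ((eval z.re (comb n a b) : ℝ) : ℂ) := by
      rw [aeval_def, ← Complex.coe_algebraMap, eval₂_at_apply]
    rw [← hzr, hz'] at h2
    exact_mod_cast h2.symm
  have hne : comb n a b ≠ 0 := by
    intro h0
    obtain ⟨k, rfl⟩ : ∃ k, n = k + 1 := ⟨n - 1, by omega⟩
    have := upper k (by omega) a b ha hb hab Complex.I (by simp)
    rw [h0] at this
    simp at this
  rw [eval_eq_sum_range] at h1
  have h3 := (Finset.sum_eq_zero_iff_of_nonneg (fun i _ =>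
    mul_nonneg (comb_coeff_nonneg n a b ha hb i) (pow_nonneg hre.le i))).1 h1
  apply hne
  have h4 : (comb n a b).leadingCoeff = 0 := by
    have := h3 (comb n a b).natDegree (Finset.mem_range.2 (Nat.lt_succ_self _))
    rcases mul_eq_zero.1 this with h | h
    · exact h
    · exact absurd h (pow_ne_zero _ hre.ne')
  exact leadingCoeff_eq_zero.1 h4

end Pool.Agent.Results.MP_977251_co.SignedCombinations
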